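import Pool.Agent.Helper23.RS.EndA
import Pool.Agent.Helper86.RS.EndOne
import Pool.Agent.Helper94.FS.NonDeg
import Pool.Agent.Helper77.RS.OpenIn
import Pool.Agent.Helper83.RS.Glue

/-!
# RS: a free boundary minimal surface of revolution is the critical catenoid
-/

set_option autoImplicit false

open Filter
open scoped ContDiff Topology

namespace Pool.Agent.Helper23.RS

open Pool.Agent.Helper78.FB

variable {F : E → ℝ}

private theorem is {y : E} (hy : y ∈ inn F) : y ∈ surf F := ⟨hy.1.le, hy.2⟩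

private theorem closed_surf (h : FBMS F) : IsClosed (surf F) :=
  (isClosed_le continuous_norm continuous_const).inter (isClosed_singleton.preimage h.smooth.continuous)

/-- The value of `PP F` is not zero. -/
theorem PP_ne (h : FBMS F) (hn : ∃ y ∈ surf F, normA F y ≠ 0) (hw : ∀ y ∈ surf F, ww F 0 1 y = 0) {c : ℝ}
    (hP : ∀ y ∈ surf F, PP F y = c) : c ≠ 0 := by
  rintro rfl
  obtain ⟨x, hx, hnx⟩ := hn
  apply hnx
  have hF := h.smooth
  have hi : ∀ y ∈ inn F, pd 0 F y = 0 := by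
    intro y hy
    by_cases hR : y 0 ^ 2 + y 1 ^ 2 = 0
    · have h0 : y 0 = 0 := by nlinarith [sq_nonneg (y 0), sq_nonneg (y 1)]
      have h1 : y 1 = 0 := by nlinarith [sq_nonneg (y 0), sq_nonneg (y 1)]
      have m1 := pd_ww_zero h hw hy 1
      rw [pd_ww hF] at m1
      simp [h0, h1] at m1
      exact m1
    · obtain ⟨t, h1, h2, -⟩ := hess h hw hy hR
      have h3 := hP y (is hy)
      unfold PP at h3
      rw [h1, h2] at h3
      have h4 : t * (y 0 ^ 2 + y 1 ^ 2) = 0 := by linarith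
      rw [h1, (mul_eq_zero.1 h4).resolve_right hR, zero_mul]
  have hs : ∀ y ∈ surf F, pd 0 F y = 0 := by
    intro y hy
    have h1 : IsClosed {z : E | pd 0 F z = 0} :=
      isClosed_singleton.preimage (contDiff_pd 0 hF).continuous
    have h2 : closure (inn F) ⊆ {z : E | pd 0 F z = 0} := closure_minimal (fun z hz => hi z hz) h1
    exact h2 (surf_subset h hy)
  refine normal_dir h (c := ![1, 0, 0]) (fun h0 => ?_) (fun y hy => ?_) x hx
  · have := congrFun h0 0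
    simp at this
  · rw [Fin.sum_univ_three]
    simp [hs y hy]

/-- The surface lies in a catenoid. -/
theorem in_cat (h : FBMS F) (hconn : IsPreconnected (inn F)) (hn : ∃ y ∈ surf F, normA F y ≠ 0)
    (hw : ∀ y ∈ surf F, ww F 0 1 y = 0) : ∃ c z : ℝ, c ≠ 0 ∧ ∀ y ∈ surf F, PP F y = c ∧
      y 0 ^ 2 + y 1 ^ 2 = c ^ 2 * Real.cosh ((y 2 - z) / c) ^ 2 ∧ pd 2 F y = -Real.tanh ((y 2 - z) / c) := by
  have hF := h.smooth
  obtain ⟨x, hx, hnx⟩ := hn
  obtain ⟨c, hcd⟩ : ∃ c, c = PP F x := ⟨_, rfl⟩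
  have hP : ∀ y ∈ surf F, PP F y = c := fun y hy => by
    rw [hcd]
    exact Helper99.RS.const_of_par h hconn (contDiff_PP hF) (fun z hz => par_PP h hw hz) y hy x hx
  have hc : c ≠ 0 := PP_ne h ⟨x, hx, hnx⟩ hw hP
  have hK : ∀ y ∈ surf F, KK F c y = KK F c x := fun y hy =>
    Helper99.RS.const_of_par h hconn (contDiff_KK hF c) (fun z hz => par_KK h hw hc hz (hP z (is hz))) y hy x hx
  have hsq : ∀ y ∈ surf F, (y 0 ^ 2 + y 1 ^ 2) * (1 - pd 2 F y ^ 2) = c ^ 2 := by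
    intro y hy
    have h1 := grad_sq h hy
    have h2 : y 0 * pd 1 F y - y 1 * pd 0 F y = 0 := hw y hy
    have h3 : y 0 * pd 0 F y + y 1 * pd 1 F y = c := hP y hy
    rw [Fin.sum_univ_three] at h1
    rw [← h3]
    linear_combination (-(y 0 ^ 2 + y 1 ^ 2)) * h1 + (y 0 * pd 1 F y - y 1 * pd 0 F y) * h2
  have hc2 : 0 < c ^ 2 := by positivity
  have hpos : ∀ y ∈ surf F, 0 < KK F c y := by
    intro y hy
    have h1 := hsq y hy
    have h2 : y 0 ^ 2 + y 1 ^ 2 ≠ 0 := fun h0 => by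
      rw [h0, zero_mul] at h1
      exact hc2.ne h1
    have h3 : 1 + pd 2 F y ≠ 0 := fun h0 => by
      have : 1 - pd 2 F y ^ 2 = 0 := by linear_combination (1 - pd 2 F y) * h0
      rw [this, mul_zero] at h1
      exact hc2.ne h1
    have h4 : 0 < y 0 * y 0 + y 1 * y 1 := by
      rcases lt_or_eq_of_le (add_nonneg (sq_nonneg (y 0)) (sq_nonneg (y 1))) with h5 | h5
      · nlinarith
      · exact absurd h5.symm h2
    have h5 : 0 < (1 + pd 2 F y) * (1 + pd 2 F y) := mul_self_pos.2 h3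
    unfold KK
    have := Real.exp_pos (2 / c * y 2)
    positivity
  obtain ⟨κ, hκ⟩ : ∃ κ, κ = KK F c x := ⟨_, rfl⟩
  have hκp : 0 < κ := by rw [hκ]; exact hpos x hx
  refine ⟨c, c / 2 * Real.log (κ / c ^ 2), hc, fun y hy => ?_⟩
  obtain ⟨σ, hσ⟩ : ∃ σ, σ = (y 2 - c / 2 * Real.log (κ / c ^ 2)) / c := ⟨_, rfl⟩
  rw [← hσ]
  obtain ⟨R, hR⟩ : ∃ R, R = y 0 ^ 2 + y 1 ^ 2 := ⟨_, rfl⟩
  obtain ⟨n, hn⟩ : ∃ n, n = pd 2 F y := ⟨_, rfl⟩
  have h1 : R * (1 - n ^ 2) = c ^ 2 := by rw [hR, hn]; exact hsq y hy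
  have h2 : Real.exp (2 / c * y 2) * (R * (1 + n) ^ 2) = κ := by
    rw [hκ, ← hK y hy, hR, hn]
    unfold KK
    ring
  have hA : R * (1 + n) ^ 2 = c ^ 2 * Real.exp (-(2 * σ)) := by
    have e1 : -(2 * σ) = Real.log (κ / c ^ 2) - 2 / c * y 2 := by
      rw [hσ]
      field_simp
      ring
    have e2 : 0 < κ / c ^ 2 := by positivity
    rw [e1, Real.exp_sub, Real.exp_log e2, ← h2]
    have := (Real.exp_pos (2 / c * y 2)).ne'
    field_simp
  have hB : R * (1 - n) ^ 2 = c ^ 2 * Real.exp (2 * σ) := by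
    have e3 : (R * (1 + n) ^ 2) * (R * (1 - n) ^ 2) = c ^ 2 * c ^ 2 := by
      rw [← h1]
      ring
    rw [hA] at e3
    have e4 : Real.exp (-(2 * σ)) * Real.exp (2 * σ) = 1 := by
      rw [← Real.exp_add]
      simp
    have e5 : c ^ 2 * Real.exp (-(2 * σ)) ≠ 0 := mul_ne_zero hc2.ne' (Real.exp_pos _).ne'
    apply mul_left_cancel₀ e5
    rw [e3]
    linear_combination (-(c ^ 2 * c ^ 2)) * e4
  have hch : Real.cosh σ = (Real.exp σ + Real.exp (-σ)) / 2 := Real.cosh_eq σ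
  have hsh : Real.sinh σ = (Real.exp σ - Real.exp (-σ)) / 2 := Real.sinh_eq σ
  have x1 : Real.exp (2 * σ) = Real.exp σ ^ 2 := by
    rw [two_mul, Real.exp_add, sq]
  have x2 : Real.exp (-(2 * σ)) = Real.exp (-σ) ^ 2 := by
    rw [two_mul, neg_add, Real.exp_add, sq]
  have x3 : Real.exp σ * Real.exp (-σ) = 1 := by
    rw [← Real.exp_add]
    simp
  rw [x2] at hA
  rw [x1] at hB
  have hRc : R = c ^ 2 * Real.cosh σ ^ 2 := by
    rw [hch]
    linear_combination (1 / 4) * hA + (1 / 4) * hB + (1 / 2) * h1 - (c ^ 2 / 2) * x3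
  have hnc : n = -Real.tanh σ := by
    have hcp := Real.cosh_pos σ
    rw [Real.tanh_eq_sinh_div_cosh, ← neg_div, eq_div_iff hcp.ne']
    have e6 : R * n = -(c ^ 2 * Real.sinh σ * Real.cosh σ) := by
      rw [hch, hsh]
      linear_combination (1 / 4) * hA - (1 / 4) * hB
    rw [hRc] at e6
    have e7 : c ^ 2 * Real.cosh σ ≠ 0 := mul_ne_zero hc2.ne' hcp.ne'
    apply mul_left_cancel₀ e7
    linear_combination e6
  refine ⟨hP y hy, ?_, ?_⟩
  · rw [← hR]; exact hRc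
  · rw [← hn]; exact hnc

/-- A free boundary minimal surface of revolution which is not flat is the critical catenoid. -/
theorem end_cat (h : FBMS F) (hconn : IsPreconnected (inn F)) (hn : ∃ y ∈ surf F, normA F y ≠ 0)
    (hw : ∀ y ∈ surf F, ww F 0 1 y = 0) :
    ∃ s : ℝ, 0 < s ∧ s * Real.tanh s = 1 ∧ surf F =
      {y : E | ∃ σ θ : ℝ, |σ| ≤ s ∧ y = !₂[1 / (s * Real.cosh s) * (Real.cosh σ * Real.cos θ),
        1 / (s * Real.cosh s) * (Real.cosh σ * Real.sin θ), 1 / (s * Real.cosh s) * σ]} := by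
  obtain ⟨c, z, hc, hcat⟩ := in_cat h hconn hn hw
  have hne : (inn F).Nonempty := by
    obtain ⟨x, hx, -⟩ := hn
    exact closure_nonempty_iff.1 ⟨x, surf_subset h hx⟩
  refine Helper99.RS.end_of_cat h hne hc (fun y hy => (hcat y hy).2.1)
    (fun G hG h0 z hz hk => Helper99.RS.open_in h hG h0 hz hk) (fun y hy => ?_)
  have hys : y ∈ surf F := ⟨hy.1.le, hy.2⟩
  obtain ⟨h1, -, h3⟩ := hcat y hys
  have h4 := orth h hy
  unfold uu at h4
  rw [Fin.sum_univ_three, h3] at h4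
  unfold PP at h1
  linarith

end Pool.Agent.Helper23.RS
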