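import Pool.Agent.Helper99.RS.Defs
import Pool.Agent.Helper94.FB.Codazzi

/-!
# RS: minimal surfaces of revolution: the Hessian and the first integrals

If `ww F 0 1 = 0` on the surface, then `P = y₀ N₀ + y₁ N₁` and `K = exp (2 y₂ / c) (y₀² + y₁²) (1 + N₂)²` (with `c` the value of
`P`) have gradients parallel to `N` along the surface.
-/

set_option autoImplicit false

open Filter
open scoped ContDiff Topology

namespace Pool.Agent.Helper23.RS

open Pool.Agent.Helper78.FB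

/-- The Hessian of a minimal surface of revolution. -/
theorem hess_alg {a b n0 n1 n2 h00 h01 h02 h11 h12 h22 : ℝ} (hR : a ^ 2 + b ^ 2 ≠ 0)
    (hn : n0 ^ 2 + n1 ^ 2 + n2 ^ 2 = 1) (e0 : n0 * h00 + n1 * h01 + n2 * h02 = 0)
    (e1 : n0 * h01 + n1 * h11 + n2 * h12 = 0) (e2 : n0 * h02 + n1 * h12 + n2 * h22 = 0)
    (tr : h00 + h11 + h22 = 0) (w : a * n1 - b * n0 = 0) (w0 : n1 + a * h01 - b * h00 = 0)
    (w1 : a * h11 - (n0 + b * h01) = 0) (w2 : a * h12 - b * h02 = 0) :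
    ∃ t : ℝ, n0 = t * a ∧ n1 = t * b ∧ t ^ 2 * (a ^ 2 + b ^ 2) + n2 ^ 2 = 1 ∧
      a * h00 + b * h01 = -n2 ^ 2 * t * a ∧ a * h01 + b * h11 = -n2 ^ 2 * t * b ∧
      h02 = t ^ 2 * n2 * a ∧ h12 = t ^ 2 * n2 * b ∧ h22 = -t ^ 3 * (a ^ 2 + b ^ 2) := by
  obtain ⟨R, hRd⟩ : ∃ R, R = a ^ 2 + b ^ 2 := ⟨_, rfl⟩
  obtain ⟨t, ht⟩ : ∃ t, t = (a * n0 + b * n1) / R := ⟨_, rfl⟩
  rw [← hRd] at hR
  have htR : t * R = a * n0 + b * n1 := by rw [ht]; field_simp
  have hn0 : n0 = t * a := by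
    apply mul_left_cancel₀ hR
    have : R * (t * a) = a * (t * R) := by ring
    rw [this, htR, hRd]
    linear_combination (-b) * w
  have hn1 : n1 = t * b := by
    apply mul_left_cancel₀ hR
    have : R * (t * b) = b * (t * R) := by ring
    rw [this, htR, hRd]
    linear_combination a * w
  have hu : t ^ 2 * R + n2 ^ 2 = 1 := by
    rw [hn0, hn1] at hn
    rw [hRd]
    linear_combination hn
  obtain ⟨X, hX⟩ : ∃ X, X = a * h00 + b * h01 := ⟨_, rfl⟩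
  obtain ⟨Y, hY⟩ : ∃ Y, Y = a * h01 + b * h11 := ⟨_, rfl⟩
  obtain ⟨Z, hZ⟩ : ∃ Z, Z = a * h02 + b * h12 := ⟨_, rfl⟩
  have h02R : R * h02 = a * Z := by
    rw [hRd, hZ]
    linear_combination (-b) * w2
  have h12R : R * h12 = b * Z := by
    rw [hRd, hZ]
    linear_combination a * w2
  have hXY : a * Y = b * X := by
    rw [hX, hY]
    linear_combination a * w0 + b * w1 - w
  obtain ⟨x, hx⟩ : ∃ x, x = (a * X + b * Y) / R := ⟨_, rfl⟩
  have hxR : x * R = a * X + b * Y := by rw [hx]; field_simp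
  have hXx : X = x * a := by
    apply mul_left_cancel₀ hR
    have : R * (x * a) = a * (x * R) := by ring
    rw [this, hxR, hRd]
    linear_combination (-b) * hXY
  have hYx : Y = x * b := by
    apply mul_left_cancel₀ hR
    have : R * (x * b) = b * (x * R) := by ring
    rw [this, hxR, hRd]
    linear_combination a * hXY
  have h22 : h22 = -x - t := by
    apply mul_left_cancel₀ hR
    have e : R * (-x - t) = -(x * R) - t * R := by ring
    rw [e, hxR, htR, hRd, hX, hY]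
    linear_combination (a ^ 2 + b ^ 2) * tr + b * w0 - a * w1
  have q1 : t * x * R + n2 * Z = 0 := by
    apply mul_left_cancel₀ hR
    rw [mul_zero]
    have e3 : t * X + n2 * h02 = 0 := by
      rw [hn0, hn1] at e0
      rw [hX]
      linear_combination e0
    have e4 : t * Y + n2 * h12 = 0 := by
      rw [hn0, hn1] at e1
      rw [hY]
      linear_combination e1
    have e5 : a * (t * x * R + n2 * Z) = 0 := by
      have : a * (t * x * R + n2 * Z) = R * (t * X + n2 * h02) := by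
        rw [hXx]
        linear_combination (-n2) * h02R
      rw [this, e3, mul_zero]
    have e6 : b * (t * x * R + n2 * Z) = 0 := by
      have : b * (t * x * R + n2 * Z) = R * (t * Y + n2 * h12) := by
        rw [hYx]
        linear_combination (-n2) * h12R
      rw [this, e4, mul_zero]
    calc R * (t * x * R + n2 * Z) = a * (a * (t * x * R + n2 * Z)) + b * (b * (t * x * R + n2 * Z)) := by
          rw [hRd]; ring
      _ = 0 := by rw [e5, e6]; ring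
  have q2 : t * Z = n2 * (x + t) := by
    rw [hn0, hn1, h22] at e2
    rw [hZ]
    linear_combination e2
  have hZv : Z = t ^ 2 * R * n2 := by
    linear_combination (-Z) * hu + t * R * q2 + n2 * q1
  have hxv : x = -n2 ^ 2 * t := by
    have q3 : n2 * (x + t * n2 ^ 2) = 0 := by
      have : t * (t ^ 2 * R * n2) = n2 * (x + t) := by rw [← hZv]; exact q2
      linear_combination (-1) * this + t * n2 * hu
    have q4 : t * R * (n2 ^ 2 * t + x) = 0 := by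
      have := q1
      rw [hZv] at this
      linear_combination this
    have q5 : x + t * n2 ^ 2 = 0 := by
      linear_combination (-(x + t * n2 ^ 2)) * hu + t * q4 + n2 * q3
    linear_combination q5
  refine ⟨t, hn0, hn1, ?_, ?_, ?_, ?_, ?_, ?_⟩
  · rw [← hRd]; exact hu
  · rw [← hX, hXx, hxv]
  · rw [← hY, hYx, hxv]
  · apply mul_left_cancel₀ hR
    rw [h02R, hZv]
    ring
  · apply mul_left_cancel₀ hR
    rw [h12R, hZv]
    ring
  · rw [h22, hxv, ← hRd]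
    linear_combination t * hu

variable {F : E → ℝ}

/-- `y₀ N₀ + y₁ N₁`. -/
noncomputable def PP (F : E → ℝ) (y : E) : ℝ := y 0 * pd 0 F y + y 1 * pd 1 F y

/-- `exp (2 y₂ / c) (y₀² + y₁²) (1 + N₂)²`. -/
noncomputable def KK (F : E → ℝ) (c : ℝ) (y : E) : ℝ :=
  Real.exp (2 / c * y 2) * ((y 0 * y 0 + y 1 * y 1) * ((1 + pd 2 F y) * (1 + pd 2 F y)))

theorem contDiff_PP (hF : ContDiff ℝ ∞ F) : ContDiff ℝ ∞ (PP F) :=
  ((contDiff_coord 0).mul (contDiff_pd 0 hF)).add ((contDiff_coord 1).mul (contDiff_pd 1 hF))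

private theorem cE (c : ℝ) : ContDiff ℝ ∞ (fun y : E => Real.exp (2 / c * y 2)) :=
  Real.contDiff_exp.comp (contDiff_const.mul (contDiff_coord 2))

private theorem cR : ContDiff ℝ ∞ (fun y : E => y 0 * y 0 + y 1 * y 1) :=
  ((contDiff_coord 0).mul (contDiff_coord 0)).add ((contDiff_coord 1).mul (contDiff_coord 1))

private theorem cN (hF : ContDiff ℝ ∞ F) : ContDiff ℝ ∞ (fun y : E => 1 + pd 2 F y) :=
  contDiff_const.add (contDiff_pd 2 hF)

theorem contDiff_KK (hF : ContDiff ℝ ∞ F) (c : ℝ) : ContDiff ℝ ∞ (KK F c) :=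
  (cE c).mul (cR.mul ((cN hF).mul (cN hF)))

theorem pd_PP (hF : ContDiff ℝ ∞ F) (k : Fin 3) (y : E) : pd k (PP F) y =
    ((if k = 0 then 1 else 0) * pd 0 F y + y 0 * pd k (pd 0 F) y) +
      ((if k = 1 then 1 else 0) * pd 1 F y + y 1 * pd k (pd 1 F) y) := by
  show pd k (fun y : E => y 0 * pd 0 F y + y 1 * pd 1 F y) y = _
  rw [pd_add k ((contDiff_coord 0).mul (contDiff_pd 0 hF)) ((contDiff_coord 1).mul (contDiff_pd 1 hF)),
    pd_mul k (contDiff_coord 0) (contDiff_pd 0 hF), pd_mul k (contDiff_coord 1) (contDiff_pd 1 hF),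
    pd_coord k 0, pd_coord k 1]

theorem pd_KK (hF : ContDiff ℝ ∞ F) (c : ℝ) (k : Fin 3) (y : E) : pd k (KK F c) y =
    Real.exp (2 / c * y 2) * (2 / c * (if k = 2 then 1 else 0) *
        ((y 0 * y 0 + y 1 * y 1) * ((1 + pd 2 F y) * (1 + pd 2 F y))) +
      (2 * ((if k = 0 then 1 else 0) * y 0 + (if k = 1 then 1 else 0) * y 1) *
          ((1 + pd 2 F y) * (1 + pd 2 F y)) +
        (y 0 * y 0 + y 1 * y 1) * (2 * (1 + pd 2 F y) * pd k (pd 2 F) y))) := by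
  show pd k (fun y : E => Real.exp (2 / c * y 2) * ((y 0 * y 0 + y 1 * y 1) *
    ((1 + pd 2 F y) * (1 + pd 2 F y)))) y = _
  have h1 : pd k (fun y : E => Real.exp (2 / c * y 2)) =
      fun y => Real.exp (2 / c * y 2) * (2 / c * (if k = 2 then 1 else 0)) := by
    rw [pd_comp k Real.exp Real.contDiff_exp (contDiff_const.mul (contDiff_coord 2)),
      pd_const_mul k (2 / c) (contDiff_coord 2), pd_coord k 2, Real.deriv_exp]
  have h2 : pd k (fun y : E => 1 + pd 2 F y) = fun y => pd k (pd 2 F) y := by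
    rw [pd_add k contDiff_const (contDiff_pd 2 hF), pd_const]
    funext y
    rw [zero_add]
  have h3 : pd k (fun y : E => y 0 * y 0 + y 1 * y 1) =
      fun y => 2 * ((if k = 0 then 1 else 0) * y 0 + (if k = 1 then 1 else 0) * y 1) := by
    rw [pd_add k ((contDiff_coord 0).mul (contDiff_coord 0)) ((contDiff_coord 1).mul (contDiff_coord 1)),
      pd_mul k (contDiff_coord 0) (contDiff_coord 0), pd_mul k (contDiff_coord 1) (contDiff_coord 1),
      pd_coord k 0, pd_coord k 1]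
    funext y
    ring
  rw [pd_mul k (cE c) (cR.mul ((cN hF).mul (cN hF))), pd_mul k cR ((cN hF).mul (cN hF)),
    pd_mul k (cN hF) (cN hF), h1, h2, h3]
  ring

private theorem is {y : E} (hy : y ∈ inn F) : y ∈ surf F := ⟨hy.1.le, hy.2⟩

private theorem ww0 (hF : ContDiff ℝ ∞ F) (y : E) :
    pd 0 (ww F 0 1) y = pd 1 F y + y 0 * pd 0 (pd 1 F) y - y 1 * pd 0 (pd 0 F) y := by
  rw [pd_ww hF]
  simp

private theorem ww1 (hF : ContDiff ℝ ∞ F) (y : E) :
    pd 1 (ww F 0 1) y = y 0 * pd 1 (pd 1 F) y - (pd 0 F y + y 1 * pd 1 (pd 0 F) y) := by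
  rw [pd_ww hF]
  simp

private theorem ww2 (hF : ContDiff ℝ ∞ F) (y : E) :
    pd 2 (ww F 0 1) y = y 0 * pd 2 (pd 1 F) y - y 1 * pd 2 (pd 0 F) y := by
  rw [pd_ww hF]
  simp

/-- The gradient of `ww F 0 1` vanishes at the interior points of a surface of revolution. -/
theorem pd_ww_zero (h : FBMS F) (hw : ∀ y ∈ surf F, ww F 0 1 y = 0) {y : E} (hy : y ∈ inn F) (k : Fin 3) :
    pd k (ww F 0 1) y = 0 := by
  have hF := h.smooth
  obtain ⟨m, hm⟩ := grad_par h (contDiff_ww hF 0 1) hy Set.univ isOpen_univ trivial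
    (fun z hz _ => hw z (is hz))
  have hsq := grad_sq h (is hy)
  have e0 := eik1 h (is hy) 0
  have e1 := eik1 h (is hy) 1
  have m0 := hm 0
  have m1 := hm 1
  have m2 := hm 2
  rw [ww0 hF] at m0
  rw [ww1 hF] at m1
  rw [ww2 hF] at m2
  simp only [Fin.sum_univ_three] at hsq e0 e1
  have c01 : pd 0 (pd 1 F) y = pd 1 (pd 0 F) y := by rw [pd_comm 0 1 hF]
  have c02 : pd 0 (pd 2 F) y = pd 2 (pd 0 F) y := by rw [pd_comm 0 2 hF]
  have c12 : pd 1 (pd 2 F) y = pd 2 (pd 1 F) y := by rw [pd_comm 1 2 hF]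
  rw [c01, c02] at e0
  rw [c12] at e1
  rw [c01] at m0
  have hm0 : m = 0 := by
    linear_combination (-m) * hsq - pd 0 F y * m0 - pd 1 F y * m1 - pd 2 F y * m2 + y 0 * e1 - y 1 * e0
  rw [hm k, hm0, zero_mul]

/-- The Hessian of `F` at the interior points of a surface of revolution. -/
theorem hess (h : FBMS F) (hw : ∀ y ∈ surf F, ww F 0 1 y = 0) {y : E} (hy : y ∈ inn F)
    (hR : y 0 ^ 2 + y 1 ^ 2 ≠ 0) :
    ∃ t : ℝ, pd 0 F y = t * y 0 ∧ pd 1 F y = t * y 1 ∧ t ^ 2 * (y 0 ^ 2 + y 1 ^ 2) + pd 2 F y ^ 2 = 1 ∧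
      y 0 * pd 0 (pd 0 F) y + y 1 * pd 0 (pd 1 F) y = -pd 2 F y ^ 2 * t * y 0 ∧
      y 0 * pd 1 (pd 0 F) y + y 1 * pd 1 (pd 1 F) y = -pd 2 F y ^ 2 * t * y 1 ∧
      pd 0 (pd 2 F) y = t ^ 2 * pd 2 F y * y 0 ∧ pd 1 (pd 2 F) y = t ^ 2 * pd 2 F y * y 1 ∧
      pd 2 (pd 2 F) y = -t ^ 3 * (y 0 ^ 2 + y 1 ^ 2) ∧
      pd 2 (pd 0 F) y = t ^ 2 * pd 2 F y * y 0 ∧ pd 2 (pd 1 F) y = t ^ 2 * pd 2 F y * y 1 := by
  have hF := h.smooth
  have hsq := grad_sq h (is hy)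
  have e0 := eik1 h (is hy) 0
  have e1 := eik1 h (is hy) 1
  have e2 := eik1 h (is hy) 2
  have tr := tr_zero h (is hy)
  have m0 := pd_ww_zero h hw hy 0
  have m1 := pd_ww_zero h hw hy 1
  have m2 := pd_ww_zero h hw hy 2
  have w : y 0 * pd 1 F y - y 1 * pd 0 F y = 0 := hw y (is hy)
  rw [ww0 hF] at m0
  rw [ww1 hF] at m1
  rw [ww2 hF] at m2
  simp only [Fin.sum_univ_three] at hsq e0 e1 e2 tr
  have c10 : pd 1 (pd 0 F) y = pd 0 (pd 1 F) y := by rw [pd_comm 0 1 hF]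
  have c20 : pd 2 (pd 0 F) y = pd 0 (pd 2 F) y := by rw [pd_comm 0 2 hF]
  have c21 : pd 2 (pd 1 F) y = pd 1 (pd 2 F) y := by rw [pd_comm 1 2 hF]
  rw [c10] at m1
  rw [c20, c21] at m2
  rw [c10] at e1
  rw [c20, c21] at e2
  rw [c10, c20, c21]
  obtain ⟨t, h1, h2, h3, h4, h5, h6, h7, h8⟩ := hess_alg (a := y 0) (b := y 1) (n0 := pd 0 F y)
    (n1 := pd 1 F y) (n2 := pd 2 F y) (h00 := pd 0 (pd 0 F) y) (h01 := pd 0 (pd 1 F) y)
    (h02 := pd 0 (pd 2 F) y) (h11 := pd 1 (pd 1 F) y) (h12 := pd 1 (pd 2 F) y) (h22 := pd 2 (pd 2 F) y)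
    hR hsq (by linarith) (by linarith) (by linarith) tr w (by linarith) (by linarith) (by linarith)
  exact ⟨t, h1, h2, h3, h4, h5, h6, h7, h8, h6, h7⟩

private theorem PP0 (hF : ContDiff ℝ ∞ F) (y : E) :
    pd 0 (PP F) y = pd 0 F y + y 0 * pd 0 (pd 0 F) y + y 1 * pd 0 (pd 1 F) y := by
  rw [pd_PP hF]
  simp

private theorem PP1 (hF : ContDiff ℝ ∞ F) (y : E) :
    pd 1 (PP F) y = y 0 * pd 1 (pd 0 F) y + (pd 1 F y + y 1 * pd 1 (pd 1 F) y) := by
  rw [pd_PP hF]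
  simp

private theorem PP2 (hF : ContDiff ℝ ∞ F) (y : E) :
    pd 2 (PP F) y = y 0 * pd 2 (pd 0 F) y + y 1 * pd 2 (pd 1 F) y := by
  rw [pd_PP hF]
  simp

/-- The gradient of `PP F` is parallel to the normal. -/
theorem par_PP (h : FBMS F) (hw : ∀ y ∈ surf F, ww F 0 1 y = 0) {y : E} (hy : y ∈ inn F) :
    ∃ m : ℝ, ∀ k, pd k (PP F) y = m * pd k F y := by
  have hF := h.smooth
  by_cases hR : y 0 ^ 2 + y 1 ^ 2 = 0
  · have h0 : y 0 = 0 := by nlinarith [sq_nonneg (y 0), sq_nonneg (y 1)]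
    have h1 : y 1 = 0 := by nlinarith [sq_nonneg (y 0), sq_nonneg (y 1)]
    have m0 := pd_ww_zero h hw hy 0
    have m1 := pd_ww_zero h hw hy 1
    rw [ww0 hF, h0, h1] at m0
    rw [ww1 hF, h0, h1] at m1
    refine ⟨0, fun k => ?_⟩
    rw [pd_PP hF, h0, h1]
    have n0 : pd 0 F y = 0 := by linarith
    have n1 : pd 1 F y = 0 := by linarith
    rw [n0, n1]
    ring
  · obtain ⟨t, h1, h2, h3, h4, h5, -, -, -, h9, h10⟩ := hess h hw hy hR
    refine ⟨t ^ 2 * (y 0 ^ 2 + y 1 ^ 2), fun k => ?_⟩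
    fin_cases k
    · show pd 0 (PP F) y = t ^ 2 * (y 0 ^ 2 + y 1 ^ 2) * pd 0 F y
      rw [PP0 hF, h1]
      linear_combination h4 - (t * y 0) * h3
    · show pd 1 (PP F) y = t ^ 2 * (y 0 ^ 2 + y 1 ^ 2) * pd 1 F y
      rw [PP1 hF, h2]
      linear_combination h5 - (t * y 1) * h3
    · show pd 2 (PP F) y = t ^ 2 * (y 0 ^ 2 + y 1 ^ 2) * pd 2 F y
      rw [PP2 hF, h9, h10]
      ring

private theorem KK0 (hF : ContDiff ℝ ∞ F) (c : ℝ) (y : E) : pd 0 (KK F c) y =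
    Real.exp (2 / c * y 2) * (2 * y 0 * ((1 + pd 2 F y) * (1 + pd 2 F y)) +
        (y 0 * y 0 + y 1 * y 1) * (2 * (1 + pd 2 F y) * pd 0 (pd 2 F) y)) := by
  rw [pd_KK hF]
  simp

private theorem KK1 (hF : ContDiff ℝ ∞ F) (c : ℝ) (y : E) : pd 1 (KK F c) y =
    Real.exp (2 / c * y 2) * (2 * y 1 * ((1 + pd 2 F y) * (1 + pd 2 F y)) +
        (y 0 * y 0 + y 1 * y 1) * (2 * (1 + pd 2 F y) * pd 1 (pd 2 F) y)) := by
  rw [pd_KK hF]
  simp

private theorem KK2 (hF : ContDiff ℝ ∞ F) (c : ℝ) (y : E) : pd 2 (KK F c) y =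
    Real.exp (2 / c * y 2) * (2 / c * ((y 0 * y 0 + y 1 * y 1) * ((1 + pd 2 F y) * (1 + pd 2 F y))) +
        (y 0 * y 0 + y 1 * y 1) * (2 * (1 + pd 2 F y) * pd 2 (pd 2 F) y)) := by
  rw [pd_KK hF]
  simp

private theorem K_alg {R t n u v : ℝ} (E1 : v * R = u) (E2 : u * t = 2) (h3 : t ^ 2 * R + n ^ 2 = 1) :
    v * (R * ((1 + n) * (1 + n))) + R * (2 * (1 + n) * (-t ^ 3 * R)) =
      (u * n * (1 + n) ^ 2 + 2 * (t * R) * (1 + n) ^ 2) * n := by
  linear_combination ((1 + n) ^ 2) * E1 + (R ^ 2 * t ^ 3 * (1 + n) + t * R * n * (1 + n) ^ 2) * E2 -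
    (u * (1 + n) * (t ^ 2 * R + 1 + n)) * h3

private theorem K_alg' {R t n u a : ℝ} (E2 : u * t = 2) (h3 : t ^ 2 * R + n ^ 2 = 1) :
    2 * a * ((1 + n) * (1 + n)) + R * (2 * (1 + n) * (t ^ 2 * n * a)) =
      (u * n * (1 + n) ^ 2 + 2 * (t * R) * (1 + n) ^ 2) * (t * a) := by
  linear_combination (-(n * (1 + n) ^ 2 * a)) * E2 - (2 * a * (1 + n)) * h3

/-- The gradient of `KK F c` is parallel to the normal, if `c` is the value of `PP F`. -/
theorem par_KK (h : FBMS F) (hw : ∀ y ∈ surf F, ww F 0 1 y = 0) {c : ℝ} (hc : c ≠ 0) {y : E} (hy : y ∈ inn F)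
    (hP : PP F y = c) : ∃ m : ℝ, ∀ k, pd k (KK F c) y = m * pd k F y := by
  have hF := h.smooth
  have hR : y 0 ^ 2 + y 1 ^ 2 ≠ 0 := by
    intro hR
    have h0 : y 0 = 0 := by nlinarith [sq_nonneg (y 0), sq_nonneg (y 1)]
    have h1 : y 1 = 0 := by nlinarith [sq_nonneg (y 0), sq_nonneg (y 1)]
    apply hc
    rw [← hP]
    unfold PP
    rw [h0, h1]
    ring
  obtain ⟨t, h1, h2, h3, -, -, h6, h7, h8, -, -⟩ := hess h hw hy hR
  have hct : c = t * (y 0 * y 0 + y 1 * y 1) := by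
    rw [← hP]
    unfold PP
    rw [h1, h2]
    ring
  have ht : t ≠ 0 := by
    rintro rfl
    exact hc (by rw [hct, zero_mul])
  have h3' : t ^ 2 * (y 0 * y 0 + y 1 * y 1) + pd 2 F y ^ 2 = 1 := by linear_combination h3
  have E2 : 2 / t * t = 2 := by field_simp
  have E1 : 2 / c * (y 0 * y 0 + y 1 * y 1) = 2 / t := by
    have h9 : y 0 * y 0 + y 1 * y 1 = c / t := by
      rw [hct]
      field_simp
    rw [h9]
    field_simp
  refine ⟨Real.exp (2 / c * y 2) * (2 / t * pd 2 F y * (1 + pd 2 F y) ^ 2 +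
    2 * (t * (y 0 * y 0 + y 1 * y 1)) * (1 + pd 2 F y) ^ 2), fun k => ?_⟩
  rw [mul_assoc (Real.exp (2 / c * y 2))]
  fin_cases k
  · show pd 0 (KK F c) y = Real.exp (2 / c * y 2) * (_ * pd 0 F y)
    rw [KK0 hF, h6, h1, K_alg' E2 h3']
  · show pd 1 (KK F c) y = Real.exp (2 / c * y 2) * (_ * pd 1 F y)
    rw [KK1 hF, h7, h2, K_alg' E2 h3']
  · show pd 2 (KK F c) y = Real.exp (2 / c * y 2) * (_ * pd 2 F y)
    have h8' : pd 2 (pd 2 F) y = -t ^ 3 * (y 0 * y 0 + y 1 * y 1) := by rw [h8]; ring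
    rw [KK2 hF, h8', K_alg E1 E2 h3']

end Pool.Agent.Helper23.RS
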