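import Pool.Agent.Helper99.RS.Defs

/-!
# RS: two disjoint path connected sets in the plane which both go around `0` are nested

`NW g x`: the loop `g` has no continuous logarithm of `g - x` with equal end points.
-/

set_option autoImplicit false

open Set

namespace Pool.Agent.Helper99.RS

/-- Continuous functions with values in the periods of the exponential function are constant. -/
private theorem const_of_exp {X : Type} [TopologicalSpace X] [PreconnectedSpace X] {u : X → ℂ}
    (hu : Continuous u) (h : ∀ s, Complex.exp (u s) = 1) (a b : X) : u a = u b := by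
  have h1 := Complex.isCoveringMap_exp.eq_of_comp_eq hu (continuous_const (y := u b))
    (funext fun s => Subtype.ext ((h s).trans (h b).symm)) b rfl
  exact congrFun h1 a

private theorem lift2 {g : ℝ × ℝ → ℂ} (hg : Continuous g) (h0 : ∀ x, g x ≠ 0) :
    ∃ f : ℝ × ℝ → ℂ, Continuous f ∧ ∀ x, Complex.exp (f x) = g x := by
  obtain ⟨f, ⟨-, hf⟩, -⟩ := Complex.isCoveringMapOn_exp.existsUnique_continuousMap_lifts
    (⟨g, hg⟩ : C(ℝ × ℝ, ℂ)) (a₀ := ((0, 0) : ℝ × ℝ)) (e₀ := Complex.log (g (0, 0)))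
    (Complex.exp_log (h0 _)) (fun x => h0 x)
  exact ⟨f, f.continuous, fun x => congrFun hf x⟩

/-- The loop `g` winds around `x`. -/
private def NW (g : ℝ → ℂ) (x : ℂ) : Prop :=
  ∃ f : ℝ → ℂ, Continuous f ∧ (∀ t, Complex.exp (f t) = g t - x) ∧ f 0 ≠ f 1

private theorem NW.all {g : ℝ → ℂ} {x : ℂ} (h : NW g x) {f : ℝ → ℂ} (hf : Continuous f)
    (he : ∀ t, Complex.exp (f t) = g t - x) : f 0 ≠ f 1 := by
  obtain ⟨f', hf', he', hne⟩ := h
  intro h01
  apply hne
  have hx : ∀ t, g t - x ≠ 0 := fun t => by rw [← he t]; exact Complex.exp_ne_zero _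
  have h2 : f' 0 - f 0 = f' 1 - f 1 := const_of_exp (u := fun t => f' t - f t) (hf'.sub hf) (fun t => by
    rw [Complex.exp_sub, he t, he' t, div_self (hx t)]) 0 1
  rw [h01] at h2
  exact sub_left_injective h2

private theorem NW.path {g p : ℝ → ℂ} (hg : Continuous g) (h01 : g 0 = g 1) (hp : Continuous p)
    (hne : ∀ s t, g t ≠ p s) (h : NW g (p 0)) : NW g (p 1) := by
  obtain ⟨M, hM, hMe⟩ := lift2 (g := fun x : ℝ × ℝ => g x.2 - p x.1)
    ((hg.comp continuous_snd).sub (hp.comp continuous_fst)) fun x => sub_ne_zero.2 (hne _ _)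
  have h1 : M (0, 0) ≠ M (0, 1) :=
    h.all (f := fun t => M (0, t)) (hM.comp (continuous_const.prodMk continuous_id)) fun t => hMe (0, t)
  have h2 : ∀ s : ℝ, Complex.exp (M (s, 1) - M (s, 0)) = 1 := fun s => by
    rw [Complex.exp_sub, hMe, hMe]
    show (g 1 - p s) / (g 0 - p s) = 1
    rw [h01]
    exact div_self (sub_ne_zero.2 (hne _ _))
  have h3 : M ((1 : ℝ), (1 : ℝ)) - M ((1 : ℝ), (0 : ℝ)) = M ((0 : ℝ), (1 : ℝ)) - M ((0 : ℝ), (0 : ℝ)) :=
    const_of_exp (u := fun s : ℝ => M (s, 1) - M (s, 0))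
      ((hM.comp (continuous_id.prodMk continuous_const)).sub
        (hM.comp (continuous_id.prodMk continuous_const))) h2 1 0
  refine ⟨fun t => M (1, t), hM.comp (continuous_const.prodMk continuous_id), fun t => hMe (1, t), ?_⟩
  intro h4
  apply h1
  have h5 : M ((1 : ℝ), (1 : ℝ)) - M ((1 : ℝ), (0 : ℝ)) = 0 := sub_eq_zero.2 h4.symm
  rw [h5] at h3
  exact (sub_eq_zero.1 h3.symm).symm

/-- A loop in the closed disc of radius `|x|` does not wind around `x`. -/
private theorem not_NW {g : ℝ → ℂ} {x : ℂ} (hg : Continuous g) (h01 : g 0 = g 1)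
    (hne : ∀ t, g t ≠ x) (hle : ∀ t, ‖g t‖ ≤ ‖x‖) : ¬ NW g x := by
  intro h
  have hx : x ≠ 0 := by
    intro hx
    have h1 := hle 0
    rw [hx, norm_zero] at h1
    exact hne 0 (by rw [hx]; exact norm_le_zero_iff.1 h1)
  have hre : ∀ t, 0 < (1 - g t / x).re := by
    intro t
    have h1 : ‖g t / x‖ ≤ 1 := by
      rw [norm_div]
      exact div_le_one_of_le₀ (hle t) (norm_nonneg _)
    have h2 : g t / x ≠ 1 := fun h2 => hne t ((div_eq_one_iff_eq hx).1 h2)
    have h3 : (g t / x).re ≤ ‖g t / x‖ := Complex.re_le_norm _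
    rw [Complex.sub_re, Complex.one_re]
    by_contra h4
    apply h2
    have h5 : (g t / x).re = 1 := by linarith
    have h6 : ‖g t / x‖ ^ 2 ≤ 1 := pow_le_one₀ (norm_nonneg _) h1
    rw [← Complex.normSq_eq_norm_sq, Complex.normSq_apply, h5] at h6
    have h7 : (g t / x).im = 0 := by nlinarith
    apply Complex.ext
    · rw [h5, Complex.one_re]
    · rw [h7, Complex.one_im]
  refine h.all (f := fun t => Complex.log (-x) + Complex.log (1 - g t / x)) ?_ ?_ ?_
  · refine continuous_const.add (Continuous.clog (continuous_const.sub (hg.div_const x)) fun t => ?_)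
    exact Or.inl (hre t)
  · intro t
    have h1 : 1 - g t / x ≠ 0 := fun h1 => by
      have := hre t
      rw [h1, Complex.zero_re] at this
      exact lt_irrefl _ this
    rw [Complex.exp_add, Complex.exp_log (neg_ne_zero.2 hx), Complex.exp_log h1]
    field_simp
    ring
  · show Complex.log (-x) + Complex.log (1 - g 0 / x) = Complex.log (-x) + Complex.log (1 - g 1 / x)
    rw [h01]

private theorem half {A B : Set ℂ} (hB : IsPathConnected B) (hd : Disjoint A B)
    (accA : ∀ K ⊆ A, IsCompact K → ∃ b ∈ B, JoinedIn Kᶜ 0 b)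
    {L : C(unitInterval, ℂ)} (hL : ∀ t, Complex.exp (L t) ∈ A)
    (he : Complex.exp (L 0) = Complex.exp (L 1)) (hne : L 0 ≠ L 1) {b' : ℂ} (hb' : b' ∈ B) :
    ∃ t, ‖b'‖ < ‖Complex.exp (L t)‖ := by
  obtain ⟨g, hgd⟩ : ∃ g : ℝ → ℂ, g = fun t => Complex.exp (L (projIcc 0 1 zero_le_one t)) := ⟨_, rfl⟩
  have hg : Continuous g := by
    rw [hgd]
    exact Complex.continuous_exp.comp (L.continuous.comp continuous_projIcc)
  have h0 : projIcc (0 : ℝ) 1 zero_le_one 0 = (0 : unitInterval) := projIcc_left _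
  have h1 : projIcc (0 : ℝ) 1 zero_le_one 1 = (1 : unitInterval) := projIcc_right _
  have h01 : g 0 = g 1 := by
    rw [hgd]
    show Complex.exp (L (projIcc 0 1 zero_le_one 0)) = Complex.exp (L (projIcc 0 1 zero_le_one 1))
    rw [h0, h1, he]
  have hgA : ∀ t, g t ∈ A := fun t => by rw [hgd]; exact hL _
  have hK : IsCompact (range fun t : unitInterval => Complex.exp (L t)) :=
    isCompact_range (Complex.continuous_exp.comp L.continuous)
  have hgK : ∀ t, g t ∈ range fun t : unitInterval => Complex.exp (L t) := fun t => by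
    rw [hgd]; exact ⟨_, rfl⟩
  have w0 : NW g 0 := by
    refine ⟨fun t => L (projIcc 0 1 zero_le_one t), L.continuous.comp continuous_projIcc, fun t => ?_, ?_⟩
    · rw [hgd, sub_zero]
    · show L (projIcc 0 1 zero_le_one 0) ≠ L (projIcc 0 1 zero_le_one 1)
      rw [h0, h1]
      exact hne
  obtain ⟨b, hb, hj⟩ := accA _ (range_subset_iff.2 hL) hK
  have mv : ∀ (x y : ℂ) (S : Set ℂ), (∀ t, g t ∉ S) → JoinedIn S x y → NW g x → NW g y := by
    intro x y S hS hxy hx
    obtain ⟨γ, hγ⟩ := hxy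
    have e0 : γ (projIcc 0 1 zero_le_one 0) = x := by rw [h0]; exact γ.source
    have e1 : γ (projIcc 0 1 zero_le_one 1) = y := by rw [h1]; exact γ.target
    have := NW.path (p := fun s => γ (projIcc 0 1 zero_le_one s)) hg h01
      (γ.continuous.comp continuous_projIcc) (fun s t hst => hS t (by rw [hst]; exact hγ _))
      (by rw [e0]; exact hx)
    rw [e1] at this
    exact this
  have w1 : NW g b := mv 0 b (range fun t : unitInterval => Complex.exp (L t))ᶜ (fun t ht => ht (hgK t)) hj w0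
  have w2 : NW g b' := mv b b' B (fun t ht => (Set.disjoint_left.1 hd) (hgA t) ht) (hB.joinedIn b hb b' hb') w1
  by_contra hcon
  push Not at hcon
  refine not_NW hg h01 (fun t ht => (Set.disjoint_left.1 hd) (hgA t) (by rw [ht]; exact hb')) (fun t => ?_) w2
  rw [hgd]
  exact hcon _

/-- Two disjoint path connected sets in the plane which both contain a loop around `0` cannot both be
reached from `0` in the complement of each compact subset of the other set. -/
theorem nested {A B : Set ℂ} (hA : IsPathConnected A) (hB : IsPathConnected B) (hd : Disjoint A B)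
    (_h0A : (0 : ℂ) ∉ A) (_h0B : (0 : ℂ) ∉ B) (wA : Wnd A) (wB : Wnd B)
    (accA : ∀ K ⊆ A, IsCompact K → ∃ b ∈ B, JoinedIn Kᶜ 0 b)
    (accB : ∀ K ⊆ B, IsCompact K → ∃ a ∈ A, JoinedIn Kᶜ 0 a) : False := by
  obtain ⟨L, hL, he, hne⟩ := wA
  obtain ⟨L', hL', he', hne'⟩ := wB
  have kA := fun b' (hb' : b' ∈ B) => half hB hd accA hL he hne hb'
  have kB := fun a' (ha' : a' ∈ A) => half hA hd.symm accB hL' he' hne' ha'
  obtain ⟨t, -, ht⟩ := isCompact_univ.exists_isMaxOn (univ_nonempty (α := unitInterval))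
    ((Complex.continuous_exp.comp L.continuous).norm.continuousOn)
  obtain ⟨s, hs⟩ := kB _ (hL t)
  obtain ⟨r, hr⟩ := kA _ (hL' s)
  have h1 : ‖Complex.exp (L r)‖ ≤ ‖Complex.exp (L t)‖ := ht (mem_univ r)
  linarith

end Pool.Agent.Helper99.RS
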