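import Pool.Agent.Helper94.RS.North
import Pool.Agent.Helper86.RS.Wind

/-!
# RS-SOUTH: the point of the closure of `{ww F 0 1 ≠ 0}` nearest to the southern axis, and crossing

* `south`: the minimum of `y 2 / ‖y‖` over the closure of `{ww ≠ 0}` (the proof is that of `north`).
* `crossing`: a path connected set which reaches both `0` and infinity off each compact subset of `A` meets `A`, if `A` goes around `0`.
-/

set_option autoImplicit false

open MeasureTheory Filter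
open scoped ContDiff Topology

namespace Pool.Agent.Helper99.RS

open Pool.Agent.Helper78.FB

variable {F φ : E → ℝ}

/-- A path connected set `B` which reaches `0` and infinity off each compact subset of a set `A` going around `0` meets `A`. -/
theorem crossing {A B : Set ℂ} (wA : Wnd A) (hB : IsPathConnected B) (_h0A : (0 : ℂ) ∉ A)
    (acc0 : ∀ K ⊆ A, IsCompact K → ∃ b ∈ B, JoinedIn Kᶜ 0 b)
    (accI : ∀ K ⊆ A, IsCompact K → ∃ b ∈ B, ∀ R : ℝ, ∃ x : ℂ, R < ‖x‖ ∧ JoinedIn Kᶜ b x)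
    (hd : Disjoint A B) : False := by
  obtain ⟨g, hgA, hg, hgw⟩ := wnd_loop wA
  obtain ⟨t, ht⟩ := exists_far g
  have hsub : Set.range g ⊆ A := by
    rintro _ ⟨s, rfl⟩
    exact hgA s
  have hK := isCompact_range g.continuous
  obtain ⟨b, hb, hjb⟩ := acc0 (Set.range g) hsub hK
  obtain ⟨b', hb', hI⟩ := accI (Set.range g) hsub hK
  obtain ⟨x, hx, hjx⟩ := hI ‖g t‖
  have hBs : B ⊆ (Set.range g)ᶜ := fun y hy hyg => Set.disjoint_left.1 hd (hsub hyg) hy
  have h1 : Win g x := win_trans hg ((hjb.trans ((hB.joinedIn b hb b' hb').mono hBs)).trans hjx) hgw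
  exact not_win hg (fun s => lt_of_le_of_lt (ht s) hx) h1

private theorem sq_pos' {e : E} (h0 : e ≠ 0) : ‖e‖ ^ 2 ≠ 0 := by
  have := norm_pos_iff.2 h0
  positivity

private theorem inner_single (e : E) (k : Fin 3) : innerSL ℝ e (EuclideanSpace.single k (1 : ℝ)) = e k := by
  rw [innerSL_apply_apply, EuclideanSpace.inner_single_right]
  simp

private theorem s0 : (EuclideanSpace.single (0 : Fin 3) (1 : ℝ) : E) 2 = 0 := by simp

private theorem s1 : (EuclideanSpace.single (1 : Fin 3) (1 : ℝ) : E) 2 = 0 := by simp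

private theorem s2 : (EuclideanSpace.single (2 : Fin 3) (1 : ℝ) : E) 2 = 1 := by simp

private theorem crit_inn (h : FBMS F) {e : E} (heF : F e = 0) (h0 : e ≠ 0) (hu : uu F e ≠ 0) (h1 : ‖e‖ < 1) {d : ℝ} (hd : 0 < d)
    (hm : ∀ y ∈ surf F, y ∈ Metric.ball e d → e 2 / ‖e‖ ≤ y 2 / ‖y‖) : ww F 0 1 e = 0 := by
  have hn0 : 0 < ‖e‖ := norm_pos_iff.2 h0
  set c : ℝ := e 2 / ‖e‖ with hc
  have hF' : HasStrictFDerivAt F (fderiv ℝ F e) e := h.smooth.contDiffAt.hasStrictFDerivAt (by simp)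
  have hsq : HasStrictFDerivAt (fun y : E => ‖y‖ ^ 2) (2 • innerSL ℝ e) e := hasStrictFDerivAt_norm_sq e
  have hn := hsq.sqrt (sq_pos' h0)
  have hp : HasStrictFDerivAt (fun y : E => y 2) (EuclideanSpace.proj 2 : E →L[ℝ] ℝ) e :=
    (EuclideanSpace.proj 2 : E →L[ℝ] ℝ).hasStrictFDerivAt
  have hh := hp.sub (hn.const_smul c)
  have hext : IsLocalExtrOn (fun y : E => y 2 - c • √(‖y‖ ^ 2)) {x | F x = F e} e := by
    refine Or.inl ?_
    have hb1 : ∀ᶠ y in 𝓝 e, y ∈ Metric.ball e d := Metric.isOpen_ball.mem_nhds (Metric.mem_ball_self hd)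
    have hb2 : ∀ᶠ y : E in 𝓝 e, ‖y‖ < 1 := (continuous_norm.continuousAt).eventually (gt_mem_nhds h1)
    have hb3 : ∀ᶠ y : E in 𝓝 e, 0 < ‖y‖ := (continuous_norm.continuousAt).eventually (lt_mem_nhds hn0)
    have hb4 : ∀ᶠ y in 𝓝[{x | F x = F e}] e, y ∈ {x | F x = F e} := eventually_mem_nhdsWithin
    filter_upwards [hb1.filter_mono nhdsWithin_le_nhds, hb2.filter_mono nhdsWithin_le_nhds,
      hb3.filter_mono nhdsWithin_le_nhds, hb4] with y y1 y2 y3 y4
    have h5 : F y = 0 := by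
      have : F y = F e := y4
      rw [this, heF]
    have h6 := hm y ⟨y2.le, h5⟩ y1
    rw [Real.sqrt_sq (norm_nonneg _), Real.sqrt_sq (norm_nonneg _), smul_eq_mul, smul_eq_mul]
    rw [le_div_iff₀ y3] at h6
    have h7 : c * ‖e‖ = e 2 := by
      rw [hc]
      field_simp
    linarith
  obtain ⟨a, b, hab, hl⟩ := hext.exists_multipliers_of_hasStrictFDerivAt_1d hF' hh
  have hev : ∀ v : E, a * fderiv ℝ F e v + b * (v 2 - c * (1 / (2 * √(‖e‖ ^ 2)) * (2 * innerSL ℝ e v))) = 0 := by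
    intro v
    have h8 := DFunLike.congr_fun hl v
    simpa using h8
  rw [Real.sqrt_sq (norm_nonneg _)] at hev
  have e1 := hev e
  have e2 : innerSL ℝ e e = ‖e‖ ^ 2 := by
    rw [innerSL_apply_apply, real_inner_self_eq_norm_sq]
  rw [fderiv_eq h.smooth, e2] at e1
  have h7 : c * ‖e‖ = e 2 := by
    rw [hc]
    field_simp
  have e3 : a * uu F e = 0 := by
    have e4 : c * (1 / (2 * ‖e‖) * (2 * ‖e‖ ^ 2)) = c * ‖e‖ := by
      field_simp
    rw [e4, h7] at e1
    unfold uu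
    linarith
  have ha : a = 0 := (mul_eq_zero.1 e3).resolve_right hu
  have hb : b ≠ 0 := by
    rintro rfl
    exact hab (by rw [ha]; rfl)
  have hk : ∀ k : Fin 3, (EuclideanSpace.single k (1 : ℝ) : E) 2 - c * (1 / (2 * ‖e‖) * (2 * e k)) = 0 := by
    intro k
    have h9 := hev (EuclideanSpace.single k (1 : ℝ))
    rw [ha, inner_single, zero_mul, zero_add] at h9
    exact (mul_eq_zero.1 h9).resolve_left hb
  have k0 := hk 0
  have k1 := hk 1
  have k2 := hk 2
  rw [s0] at k0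
  rw [s1] at k1
  rw [s2] at k2
  have q0 : c * e 0 = 0 := by
    have := k0
    field_simp at this
    simpa using this
  have q1 : c * e 1 = 0 := by
    have := k1
    field_simp at this
    simpa using this
  have hc0 : c ≠ 0 := by
    intro hz
    rw [hz] at k2
    simp at k2
  have r0 : e 0 = 0 := (mul_eq_zero.1 q0).resolve_left hc0
  have r1 : e 1 = 0 := (mul_eq_zero.1 q1).resolve_left hc0
  unfold ww
  rw [r0, r1]
  ring

private theorem crit_bdry (h : FBMS F) {e : E} (heF : F e = 0) (h1 : ‖e‖ = 1) {d : ℝ} (hd : 0 < d)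
    (hm : ∀ y ∈ surf F, y ∈ Metric.ball e d → e 2 / ‖e‖ ≤ y 2 / ‖y‖) : ww F 0 1 e = 0 := by
  have hF' : HasStrictFDerivAt F (fderiv ℝ F e) e := h.smooth.contDiffAt.hasStrictFDerivAt (by simp)
  have hsq : HasStrictFDerivAt (fun y : E => ‖y‖ ^ 2) (2 • innerSL ℝ e) e := hasStrictFDerivAt_norm_sq e
  have hp : HasStrictFDerivAt (fun y : E => y 2) (EuclideanSpace.proj 2 : E →L[ℝ] ℝ) e :=
    (EuclideanSpace.proj 2 : E →L[ℝ] ℝ).hasStrictFDerivAt
  let f : Fin 2 → E → ℝ := ![F, fun y => ‖y‖ ^ 2]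
  let f' : Fin 2 → (E →L[ℝ] ℝ) := ![fderiv ℝ F e, 2 • innerSL ℝ e]
  have hf' : ∀ i, HasStrictFDerivAt (f i) (f' i) e := by
    intro i
    fin_cases i
    · exact hF'
    · exact hsq
  have hext : IsLocalExtrOn (fun y : E => y 2) {x | ∀ i, f i x = f i e} e := by
    refine Or.inl ?_
    have hb1 : ∀ᶠ y in 𝓝 e, y ∈ Metric.ball e d := Metric.isOpen_ball.mem_nhds (Metric.mem_ball_self hd)
    have hb4 : ∀ᶠ y in 𝓝[{x | ∀ i, f i x = f i e}] e, y ∈ {x | ∀ i, f i x = f i e} := eventually_mem_nhdsWithin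
    filter_upwards [hb1.filter_mono nhdsWithin_le_nhds, hb4] with y y1 y4
    have h5 : F y = 0 := by
      have : F y = F e := y4 0
      rw [this, heF]
    have h6 : ‖y‖ = 1 := by
      have : ‖y‖ ^ 2 = ‖e‖ ^ 2 := y4 1
      rw [h1] at this
      have h7 := norm_nonneg y
      nlinarith
    have h8 := hm y ⟨h6.le, h5⟩ y1
    rw [h6, h1, div_one, div_one] at h8
    exact h8
  obtain ⟨L, b, hab, hl⟩ := hext.exists_multipliers_of_hasStrictFDerivAt hf' hp
  have hev : ∀ k : Fin 3, L 0 * pd k F e + L 1 * (2 * e k) + b * (EuclideanSpace.single k (1 : ℝ) : E) 2 = 0 := by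
    intro k
    have h8 := DFunLike.congr_fun hl (EuclideanSpace.single k (1 : ℝ))
    rw [Fin.sum_univ_two] at h8
    have h9 : L 0 * fderiv ℝ F e (EuclideanSpace.single k (1 : ℝ)) +
        L 1 * (2 * innerSL ℝ e (EuclideanSpace.single k (1 : ℝ))) + b * (EuclideanSpace.single k (1 : ℝ) : E) 2 = 0 := by
      simpa [f'] using h8
    rw [inner_single] at h9
    exact h9
  have k0 := hev 0
  have k1 := hev 1
  have k2 := hev 2
  rw [s0, mul_zero, add_zero] at k0
  rw [s1, mul_zero, add_zero] at k1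
  rw [s2, mul_one] at k2
  have q0 : L 0 * ww F 0 1 e = 0 := by
    unfold ww
    linear_combination (e 0) * k1 - (e 1) * k0
  have q1 : L 1 * ww F 0 1 e = 0 := by
    unfold ww
    linear_combination (1 / 2 * pd 1 F e) * k0 - (1 / 2 * pd 0 F e) * k1
  by_contra hne
  have r0 : L 0 = 0 := (mul_eq_zero.1 q0).resolve_right hne
  have r1 : L 1 = 0 := (mul_eq_zero.1 q1).resolve_right hne
  have r2 : b = 0 := by
    rw [r0, r1] at k2
    linarith
  apply hab
  have hL : L = 0 := by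
    funext i
    fin_cases i
    · exact r0
    · exact r1
  rw [hL, r2]
  rfl

theorem south (h : FBMS F) (hu : ∀ y ∈ inn F, uu F y ≠ 0) (h0 : ∀ y ∈ surf F, y ≠ 0)
    (hw : ∃ y ∈ surf F, ww F 0 1 y ≠ 0) :
    ∃ e ∈ surf F, ww F 0 1 e = 0 ∧ (∀ y ∈ surf F, ww F 0 1 y ≠ 0 → e 2 / ‖e‖ ≤ y 2 / ‖y‖) ∧
      (∀ d > 0, ∃ y ∈ surf F, y ∈ Metric.ball e d ∧ 0 < ww F 0 1 y) ∧
      (∀ d > 0, ∃ y ∈ surf F, y ∈ Metric.ball e d ∧ ww F 0 1 y < 0) := by
  have hK : IsCompact (surf F) := isCompact_surf h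
  have hZs : closure {y | y ∈ surf F ∧ ww F 0 1 y ≠ 0} ⊆ surf F := by
    refine closure_minimal (fun y hy => hy.1) hK.isClosed
  have hZ : IsCompact (closure {y | y ∈ surf F ∧ ww F 0 1 y ≠ 0}) := hK.of_isClosed_subset isClosed_closure hZs
  have hcont : ContinuousOn (fun y : E => y 2 / ‖y‖) (closure {y | y ∈ surf F ∧ ww F 0 1 y ≠ 0}) := by
    refine ContinuousOn.div (contDiff_coord (j := 2)).continuous.continuousOn continuous_norm.continuousOn fun y hy => ?_
    exact norm_ne_zero_iff.2 (h0 y (hZs hy))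
  obtain ⟨y0, hy0, hy0w⟩ := hw
  obtain ⟨e, heZ, hmax⟩ := hZ.exists_isMinOn ⟨y0, subset_closure ⟨hy0, hy0w⟩⟩ hcont
  have hes : e ∈ surf F := hZs heZ
  have hle : ∀ y ∈ surf F, ww F 0 1 y ≠ 0 → e 2 / ‖e‖ ≤ y 2 / ‖y‖ := fun y hy hne =>
    hmax (subset_closure ⟨hy, hne⟩)
  have hwc : Continuous (ww F 0 1) := (contDiff_ww h.smooth 0 1).continuous
  have hww : ww F 0 1 e = 0 := by
    by_contra hne
    have hev : ∀ᶠ y in 𝓝 e, ww F 0 1 y ≠ 0 := hwc.continuousAt.eventually_ne hne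
    obtain ⟨d, hd, hball⟩ := Metric.eventually_nhds_iff_ball.1 hev
    have hm : ∀ y ∈ surf F, y ∈ Metric.ball e d → e 2 / ‖e‖ ≤ y 2 / ‖y‖ := fun y hy hyb => hle y hy (hball y hyb)
    rcases lt_or_eq_of_le hes.1 with h1 | h1
    · exact hne (crit_inn h hes.2 (h0 e hes) (hu e ⟨h1, hes.2⟩) h1 hd hm)
    · exact hne (crit_bdry h hes.2 h1 hd hm)
  have hN : Null F (ww F 0 1) := null_ww h 0 1
  have key : ∀ φ : E → ℝ, Null F φ → (∀ y, φ y = 0 ↔ ww F 0 1 y = 0) → ∀ d > 0, ∃ y ∈ surf F, y ∈ Metric.ball e d ∧ φ y < 0 := by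
    intro φ N hiff d hd
    by_contra hcon
    push Not at hcon
    obtain ⟨r, hr, hz⟩ := null_zero h N hes hd (fun y hy hyb => hcon y hy hyb) ((hiff e).2 hww)
    obtain ⟨y, hyb, hy⟩ := mem_closure_iff.1 heZ (Metric.ball e r) Metric.isOpen_ball (Metric.mem_ball_self hr)
    exact hy.2 ((hiff y).1 (hz y hy.1 hyb))
  refine ⟨e, hes, hww, hle, ?_, ?_⟩
  · intro d hd
    obtain ⟨y, hy, hyb, hlt⟩ := key (fun y => -ww F 0 1 y) (null_neg hN) (fun y => neg_eq_zero) d hd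
    exact ⟨y, hy, hyb, by linarith⟩
  · exact key (ww F 0 1) hN (fun y => Iff.rfl)

end Pool.Agent.Helper99.RS
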